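import Pool.Agent.Helper28.Ann.Rows

/-! Annulus (A1): the transfer matrices commute, crossing symmetry, the value at `z = w`. -/

namespace H28A
open Cat Finset

variable {M : Type*} [AddCommGroup M] [Module ℂ M] [Cat M]

theorem T_T (x : ℕ → ℂ) (L : ℕ) (z z' : ℂ) (u : M) :
    T x L z' (T x L z u) = A 0 (A 0 (row 3 (fun _ => w) (fun k => z' * x k) L
      (row 2 (fun _ => w * z') x L (row 1 (fun _ => w) (fun k => z * x k) L
      (row 0 (fun _ => w * z) x L (C (L + 2) (C L u))))))) := by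
  rw [T_apply, T_apply]
  have e1 : ∀ y : M, C L (A 0 y) = A 0 (C (L + 2) y) := fun y => (ACf 0 L y (Nat.zero_le _)).symm
  rw [e1, ← A_row, ← A_row, ← row_C 1 L _ _ (j := L + 2) (by omega), ← row_C 0 L _ _ (j := L + 2) (by omega)]

theorem T_comm_gen (x : ℕ → ℂ) (hx : ∀ k, x k ≠ 0) (L : ℕ) (z z' : ℂ)
    (h1 : (w * z - (1 - w) * z') * (w * z' - (1 - w) * z) ≠ 0)
    (h2 : (w * (z * z') - (1 - w)) * (w - (1 - w) * (z * z')) ≠ 0) (u : M) :
    T x L z (T x L z' u) = T x L z' (T x L z u) := by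
  set c1 := (w * z - (1 - w) * z') * (w * z' - (1 - w) * z) with hc1
  set c2 := (w * (z * z') - (1 - w)) * (w - (1 - w) * (z * z')) with hc2
  have hw : ∀ k, w * x k ≠ 0 := fun k => mul_ne_zero w_ne_zero (hx k)
  have key : (c1 * c2) • T x L z' (T x L z u) = (c1 * c2) • T x L z (T x L z' u) := by
    rw [T_T x L z z' u]
    set y := C (L + 2) (C L u) with hy
    have e1 : ∀ v : M, R 1 1 (z * z') (R 0 z z' (R 0 z' z (R 1 (z * z') 1 v))) = (c1 * c2) • v := by
      intro v
      rw [R_inv, map_smul, R_inv, smul_smul]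
      congr 1
      rw [hc1, hc2]; ring
    have e3 : ∀ v : M, (c1 * c2) • A 0 (A 0 v) =
        A 0 (A 0 (R 1 1 (z * z') (R 0 z z' (R 0 z' z (R 1 (z * z') 1 v))))) := by
      intro v
      rw [e1]; simp only [map_smul]
    rw [e3]
    rw [R_row_comm 3 L _ _ _ _ (by omega : 1 + 2 ≤ 3),
      row_exchange 1 L (fun _ => w * z') x (fun _ => w) (fun k => z * x k) (fun k => w * x k) (z * z') 1 hw
        (fun j => by ring) (fun j => by ring),
      ← row_R_comm 0 L _ _ _ _ (by omega : 0 + L + 1 ≤ 1 + L)]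
    rw [R_row_comm 3 L _ _ _ _ (by omega : 0 + 2 ≤ 3), R_row_comm 2 L _ _ _ _ (by omega : 0 + 2 ≤ 2),
      row_exchange 0 L (fun _ => w * z') x (fun _ => w * z) x (fun k => w * x k) z' z hw
        (fun j => by ring) (fun j => by ring)]
    rw [← refl_left]
    rw [row_exchange 2 L (fun _ => w) (fun k => z' * x k) (fun _ => w) (fun k => z * x k) (fun k => w * x k) z z' hw
        (fun j => by ring) (fun j => by ring),
      ← row_R_comm 1 L _ _ _ _ (by omega : 1 + L + 1 ≤ 2 + L),
      ← row_R_comm 0 L _ _ _ _ (by omega : 0 + L + 1 ≤ 2 + L)]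
    rw [show 0 + L = L by ring, show 1 + L = L + 1 by ring, show 2 + L = L + 2 by ring, hy,
      refl_right L, R_inv]
    rw [R_row_comm 3 L _ _ _ _ (by omega : 1 + 2 ≤ 3)]
    simp only [map_smul]
    rw [row_exchange 1 L (fun _ => w) (fun k => z' * x k) (fun _ => w * z) x (fun k => w * x k) 1 (z * z') hw
        (fun j => by ring) (fun j => by ring),
      ← row_R_comm 0 L _ _ _ _ (by omega : 0 + L + 1 ≤ 1 + L),
      show 1 + L = L + 1 by ring, R_inv]
    simp only [map_smul]
    rw [T_T x L z' z u, smul_smul]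
    congr 1
    rw [hc1, hc2]; ring
  exact (smul_right_injective _ (mul_ne_zero h1 h2) key).symm

/-- crossing symmetry -/
theorem T_inv_gen (x : ℕ → ℂ) (hx : ∀ k, x k ≠ 0) (L : ℕ) (z : ℂ) (hz : z ≠ 0)
    (h : w - (1 - w) * z ^ 2 ≠ 0) (u : M) : z ^ (2 * L) • T x L z⁻¹ u = T x L z u := by
  have hw : ∀ k, w * x k ≠ 0 := fun k => mul_ne_zero w_ne_zero (hx k)
  have e1 : z ^ (2 * L) • T x L z⁻¹ u = A 0 (row 1 (fun _ => w * z) x L
      (row 0 (fun _ => w) (fun k => z * x k) L (C L u))) := by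
    rw [T_apply]
    have a1 : ∀ y : M, row 1 (fun _ => w * z) x L y =
        z ^ L • row 1 (fun _ => w) (fun k => z⁻¹ * x k) L y := by
      intro y
      rw [← row_smul]
      exact row_congr _ _ (fun j => by ring) (fun j => by rw [← mul_assoc, mul_inv_cancel₀ hz, one_mul]) y
    have a2 : ∀ y : M, row 0 (fun _ => w) (fun k => z * x k) L y =
        z ^ L • row 0 (fun _ => w * z⁻¹) x L y := by
      intro y
      rw [← row_smul]
      exact row_congr _ _ (fun j => by field_simp) (fun j => rfl) y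
    rw [a2, map_smul, a1, smul_smul, ← pow_add, ← two_mul, map_smul]
  have e2 := row_exchange 0 L (fun _ => w) (fun k => z * x k) (fun _ => w * z) x (fun k => w * x k) 1 (z ^ 2) hw
    (fun j => by ring) (fun j => by ring) (C L u)
  have e3 := congrArg (A (M := M) 0) e2
  rw [A_R, show 0 + L = L from zero_add L, R_C, mul_one, map_smul, map_smul, map_smul] at e3
  rw [e1]
  exact (smul_right_injective _ h e3).symm

end H28A
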