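import Pool.Agent.Helper28.Ann.TL

/-! Annulus (A1): local identities of the `R`-matrices, exchange of rows. -/

namespace H28A
open Cat Finset

variable {M : Type*} [AddCommGroup M] [Module ℂ M] [Cat M]

theorem R_inv (i : ℕ) (p q : ℂ) (x : M) :
    R i p q (R i q p x) = ((w * q - (1 - w) * p) * (w * p - (1 - w) * q)) • x := by
  simp only [R_apply, map_add, map_smul, E_E]
  match_scalars <;> ring

theorem R_comm {i j : ℕ} (h : i + 2 ≤ j) (p q p' q' : ℂ) (x : M) :
    R i p q (R j p' q' x) = R j p' q' (R i p q x) := by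
  simp only [R_apply, map_add, map_smul, E_comm h]
  match_scalars <;> ring

theorem R_E_comm {i j : ℕ} (h : i + 2 ≤ j) (p q : ℂ) (x : M) :
    R i p q (E j x) = E j (R i p q x) := by
  simp only [R_apply, map_add, map_smul, E_comm h]

theorem E_R_comm {i j : ℕ} (h : i + 2 ≤ j) (p q : ℂ) (x : M) :
    E i (R j p q x) = R j p q (E i x) := by
  simp only [R_apply, map_add, map_smul, E_comm h]

theorem A_R2 {i j : ℕ} (h : i ≤ j) (p q : ℂ) (x : M) : A i (R (j + 2) p q x) = R j p q (A i x) := by
  simp only [R_apply, map_add, map_smul, A_E2 h]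

theorem A_R_far {i j : ℕ} (h : i + 2 ≤ j) (p q : ℂ) (x : M) : A j (R i p q x) = R i p q (A j x) := by
  simp only [R_apply, map_add, map_smul, A_E_far h]

theorem R_C_far {i j : ℕ} (h : i + 2 ≤ j) (p q : ℂ) (x : M) : R i p q (C j x) = C j (R i p q x) := by
  simp only [R_apply, map_add, map_smul, E_C_far h]

theorem R2_C {i j : ℕ} (h : i ≤ j) (p q : ℂ) (x : M) : R (j + 2) p q (C i x) = C i (R j p q x) := by
  simp only [R_apply, map_add, map_smul, E2_C h]

/-- a cap absorbs `R` -/
theorem A_R (i : ℕ) (p q : ℂ) (x : M) : A i (R i p q x) = (w * p - (1 - w) * q) • A i x := by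
  simp only [R_apply, map_add, map_smul, A_E]
  match_scalars
  ring

/-- a cup absorbs `R` -/
theorem R_C (i : ℕ) (p q : ℂ) (x : M) : R i p q (C i x) = (w * p - (1 - w) * q) • C i x := by
  simp only [R_apply, E_C]
  match_scalars
  ring

theorem R_smul_arg (i : ℕ) (c p q : ℂ) (x : M) : R i (c * p) (c * q) x = c • R i p q x := by
  simp only [R_apply]
  module

/-- Yang-Baxter -/
theorem ybe (i : ℕ) (p q p' q' : ℂ) (x : M) :
    R i (p' * q) (q' * p) (R (i + 1) p' q' (R i p q x)) =
      R (i + 1) p q (R i p' q' (R (i + 1) (p' * q) (q' * p) x)) := by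
  simp only [R_apply, map_add, map_smul, E_E, E_succ, E_pred]
  match_scalars
  · ring
  · linear_combination ((p + q) * (p' + q') * (p' * q - q' * p) +
      (p - q) * (p' + q') * (p' * q + q' * p) - (p' * q + q' * p) * (p' - q') * (p + q)) * w_sq
  · linear_combination ((p + q) * (p' - q') * (p' * q + q' * p) -
      (q' * p + p' * q) * (p' + q') * (p - q) - (p' * q - q' * p) * (p' + q') * (p + q)) * w_sq
  · ring
  · ring

theorem ybe' (i : ℕ) (p q p' q' a b c : ℂ) (hc : c ≠ 0) (h1 : p' * q = c * a) (h2 : q' * p = c * b)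
    (x : M) : R i a b (R (i + 1) p' q' (R i p q x)) = R (i + 1) p q (R i p' q' (R (i + 1) a b x)) := by
  have h := ybe i p q p' q' x
  rw [h1, h2, R_smul_arg, R_smul_arg, map_smul, map_smul] at h
  exact smul_right_injective _ hc h

/-- `E j` commutes with a row which is far below -/
theorem row_E_comm (o k : ℕ) (p q : ℕ → ℂ) {j : ℕ} (h : o + k + 1 ≤ j) (x : M) :
    row o p q k (E j x) = E j (row o p q k x) := by
  induction k generalizing x with
  | zero => rfl
  | succ k ih =>
    rw [row_succ, row_succ, R_E_comm (by omega), ih (by omega)]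

/-- `E i` commutes with a row which is far above -/
theorem E_row_comm (o k : ℕ) (p q : ℕ → ℂ) {i : ℕ} (h : i + 2 ≤ o) (x : M) :
    E i (row o p q k x) = row o p q k (E i x) := by
  induction k generalizing x with
  | zero => rfl
  | succ k ih =>
    rw [row_succ, row_succ, ih, E_R_comm (by omega)]

theorem row_R_comm (o k : ℕ) (p q : ℕ → ℂ) (p' q' : ℂ) {j : ℕ} (h : o + k + 1 ≤ j) (x : M) :
    row o p q k (R j p' q' x) = R j p' q' (row o p q k x) := by
  simp only [R_apply, map_add, map_smul, row_E_comm o k p q h]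

theorem R_row_comm (o k : ℕ) (p q : ℕ → ℂ) (p' q' : ℂ) {i : ℕ} (h : i + 2 ≤ o) (x : M) :
    R i p' q' (row o p q k x) = row o p q k (R i p' q' x) := by
  simp only [R_apply, map_add, map_smul, E_row_comm o k p q h]

/-- the row and a cup above -/
theorem row_C (o k : ℕ) (p q : ℕ → ℂ) {j : ℕ} (h : o + k + 1 ≤ j) (x : M) :
    row o p q k (C j x) = C j (row o p q k x) := by
  induction k generalizing x with
  | zero => rfl
  | succ k ih =>
    rw [row_succ, row_succ, R_C_far (by omega), ih (by omega)]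

/-- the cap `A 0` and a row -/
theorem A_row (o k : ℕ) (p q : ℕ → ℂ) (x : M) : A 0 (row (o + 2) p q k x) = row o p q k (A 0 x) := by
  induction k generalizing x with
  | zero => rfl
  | succ k ih =>
    rw [row_succ, row_succ, ih, show o + 2 + k = o + k + 2 by ring, A_R2 (Nat.zero_le _)]

/-- a row from its other end -/
theorem row_succ' (o k : ℕ) (p q : ℕ → ℂ) (x : M) : row o p q (k + 1) x =
    R o (p 0) (q 0) (row (o + 1) (fun j => p (j + 1)) (fun j => q (j + 1)) k x) := by
  induction k generalizing x with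
  | zero => rfl
  | succ k ih =>
    rw [row_succ, ih, row_succ, show o + (k + 1) = o + 1 + k by ring]

/-- scaling of a row -/
theorem row_smul (o k : ℕ) (c : ℂ) (p q : ℕ → ℂ) (x : M) :
    row o (fun j => c * p j) (fun j => c * q j) k x = c ^ k • row o p q k x := by
  induction k generalizing x with
  | zero => simp [row_zero]
  | succ k ih =>
    rw [row_succ, row_succ, R_smul_arg, map_smul, ih, smul_smul, pow_succ']

theorem row_congr (o k : ℕ) {p q p' q' : ℕ → ℂ} (hp : ∀ j, p j = p' j) (hq : ∀ j, q j = q' j) (x : M) :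
    row o p q k x = row o p' q' k x := by
  rw [funext hp, funext hq]

/-- a product of two neighbouring rows is a product of pairs -/
noncomputable def prow (o : ℕ) (p' q' p q : ℕ → ℂ) : ℕ → M → M
  | 0 => fun x => x
  | k + 1 => fun x => prow o p' q' p q k (R (o + k + 1) (p' k) (q' k) (R (o + k) (p k) (q k) x))

theorem row_row (o k : ℕ) (p' q' p q : ℕ → ℂ) (x : M) :
    row (o + 1) p' q' k (row o p q k x) = prow o p' q' p q k x := by
  induction k generalizing x with
  | zero => rfl
  | succ k ih =>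
    rw [row_succ, row_succ]
    change _ = prow o p' q' p q k (R (o + k + 1) (p' k) (q' k) (R (o + k) (p k) (q k) x))
    rw [← ih, row_R_comm o k p q (p' k) (q' k) (j := o + k + 1) (by omega),
      show o + 1 + k = o + k + 1 by ring]

/-- exchange of two neighbouring rows -/
theorem row_exchange (o k : ℕ) (p' q' p q c : ℕ → ℂ) (a b : ℂ) (hc : ∀ j, c j ≠ 0)
    (h1 : ∀ j, p' j * q j = c j * a) (h2 : ∀ j, q' j * p j = c j * b) (x : M) :
    R o a b (row (o + 1) p' q' k (row o p q k x)) =
      row (o + 1) p q k (row o p' q' k (R (o + k) a b x)) := by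
  rw [row_row, row_row]
  induction k generalizing x with
  | zero => rfl
  | succ k ih =>
    change R o a b (prow o p' q' p q k (R (o + k + 1) (p' k) (q' k) (R (o + k) (p k) (q k) x))) =
      prow o p q p' q' k (R (o + k + 1) (p k) (q k) (R (o + k) (p' k) (q' k)
        (R (o + (k + 1)) a b x)))
    rw [ih, ybe' (o + k) (p k) (q k) (p' k) (q' k) a b (c k) (hc k) (h1 k) (h2 k),
      show o + (k + 1) = o + k + 1 by ring]

/-- left boundary -/
theorem refl_left (a b z z' : ℂ) (x : M) :
    A 0 (A 0 (R 1 a b (R 2 z z' x))) = A 0 (A 0 (R 1 a b (R 0 z z' x))) := by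
  have e2 : ∀ y : M, A 0 (A 0 (E 2 y)) = A 0 (A 0 y) := fun y => by
    rw [A_E2 (Nat.le_refl 0), A_E]
  have e12 : ∀ y : M, A 0 (A 0 (E 1 (E 2 y))) = A 0 (A 0 (E 1 (E 0 y))) := fun y => by
    have h1 : A 0 (E 1 (E 2 y)) = A 1 (E 2 y) := A_E1 0 (E 2 y)
    have h2 : A 1 (E 2 y) = A 2 y := A_E1 1 y
    have h3 : A 0 (E 1 (E 0 y)) = A 1 (E 0 y) := A_E1 0 (E 0 y)
    have h4 : A 1 (E 0 y) = A 0 y := A1_E 0 y
    rw [h1, h2, h3, h4]
    exact AA 0 0 y le_rfl
  simp only [R_apply, map_add, map_smul, A_E, e2, e12]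

/-- right boundary -/
theorem refl_right (L : ℕ) (a b z z' : ℂ) (x : M) :
    R L z z' (R (L + 1) a b (C (L + 2) (C L x))) =
      R (L + 2) z z' (R (L + 1) a b (C (L + 2) (C L x))) := by
  have e1 : C (L + 2) (C L x) = C L (C L x) := CC L L x le_rfl
  have e2 : E L (C (L + 2) (C L x)) = C (L + 2) (C L x) := by rw [e1, E_C]
  have e3 : E (L + 2) (C (L + 2) (C L x)) = C (L + 2) (C L x) := E_C _ _
  have e4 : E L (E (L + 1) (C (L + 2) (C L x))) = C (L + 2) (C L x) := by
    rw [E_C1, E_C1, e1]
  have e5 : E (L + 2) (E (L + 1) (C (L + 2) (C L x))) = C (L + 2) (C L x) := by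
    rw [E_C1, E1_C]
  simp only [R_apply, map_add, map_smul, e2, e3, e4, e5]

end H28A
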