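import Mathlib

/-!
Annulus (A1), abstract part: the Temperley-Lieb category with loop weight `1` acting on one space
`M` (semi-infinite number of strands `0, 1, 2, ...`).

`A i` (cap) removes the strands `i, i+1`, `C i` (cup) inserts two new strands `i, i+1`.
`E i = C i ∘ A i` are the Temperley-Lieb generators.  `w = exp (i π / 3)`; the spectral parameter is
`z = exp (2 i v)`; column `k` has the rapidity `x k`.

`T x L z = A 0 ∘ row 1 w (z x) L ∘ row 0 (w z) x L ∘ C L` is the double row transfer matrix of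
`L` strands (not normalised), its mass is `mass x L z = w ^ (4 L) ∏ (z + x k) (1 + z x k)`.
-/

namespace H28A
open Finset

/-- the Temperley-Lieb category (loop weight `1`) on a semi-infinite number of strands -/
class Cat (M : Type*) [AddCommGroup M] [Module ℂ M] where
  A : ℕ → M →ₗ[ℂ] M
  C : ℕ → M →ₗ[ℂ] M
  AC : ∀ (i : ℕ) (x : M), A i (C i x) = x
  AC1 : ∀ (i : ℕ) (x : M), A i (C (i + 1) x) = x
  A1C : ∀ (i : ℕ) (x : M), A (i + 1) (C i x) = x
  ACf : ∀ (i j : ℕ) (x : M), i ≤ j → A i (C (j + 2) x) = C j (A i x)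
  AfC : ∀ (i j : ℕ) (x : M), i ≤ j → A (j + 2) (C i x) = C i (A j x)
  CC : ∀ (i j : ℕ) (x : M), i ≤ j → C (j + 2) (C i x) = C i (C j x)
  AA : ∀ (i j : ℕ) (x : M), i ≤ j → A i (A (j + 2) x) = A j (A i x)

/-- `exp (i π / 3)` -/
noncomputable def w : ℂ := ⟨1 / 2, Real.sqrt 3 / 2⟩

theorem w_sq : w ^ 2 = w - 1 := by
  have h : Real.sqrt 3 * Real.sqrt 3 = 3 := Real.mul_self_sqrt (by norm_num)
  apply Complex.ext
  · simp [w, pow_two]; nlinarith
  · simp [w, pow_two]; ring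

theorem w_ne_zero : w ≠ 0 := by
  intro h
  have := congrArg Complex.re h
  simp [w] at this

theorem w_mul : w * (1 - w) = 1 := by linear_combination -w_sq

theorem w_inv : w⁻¹ = 1 - w := inv_eq_of_mul_eq_one_right w_mul

theorem w_cube : w ^ 3 = -1 := by linear_combination (w + 1) * w_sq

variable {M : Type*} [AddCommGroup M] [Module ℂ M] [Cat M]

open Cat

/-- the Temperley-Lieb generators -/
def E (i : ℕ) : M →ₗ[ℂ] M := C i ∘ₗ A i

theorem E_apply (i : ℕ) (x : M) : E i x = C i (A i x) := rfl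

theorem E_E (i : ℕ) (x : M) : E i (E i x) = E i x := by
  rw [E_apply, E_apply, AC]

theorem E_succ (i : ℕ) (x : M) : E i (E (i + 1) (E i x)) = E i x := by
  simp only [E_apply, AC1, A1C]

theorem E_pred (i : ℕ) (x : M) : E (i + 1) (E i (E (i + 1) x)) = E (i + 1) x := by
  simp only [E_apply, AC1, A1C]

theorem E_comm {i j : ℕ} (h : i + 2 ≤ j) (x : M) : E i (E j x) = E j (E i x) := by
  obtain ⟨j, rfl⟩ : ∃ k, j = k + 2 := ⟨j - 2, by omega⟩
  have h' : i ≤ j := by omega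
  simp only [E_apply]
  rw [ACf i j _ h', AfC i j _ h', AA i j _ h', CC i j _ h']

theorem E_C (i : ℕ) (x : M) : E i (C i x) = C i x := by rw [E_apply, AC]

theorem A_E (i : ℕ) (x : M) : A i (E i x) = A i x := by rw [E_apply, AC]

theorem E_C1 (i : ℕ) (x : M) : E i (C (i + 1) x) = C i x := by rw [E_apply, AC1]

theorem E1_C (i : ℕ) (x : M) : E (i + 1) (C i x) = C (i + 1) x := by rw [E_apply, A1C]

theorem A_E1 (i : ℕ) (x : M) : A i (E (i + 1) x) = A (i + 1) x := by rw [E_apply, AC1]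

theorem A1_E (i : ℕ) (x : M) : A (i + 1) (E i x) = A i x := by rw [E_apply, A1C]

/-- `E i` and a cup above -/
theorem E_C_far {i j : ℕ} (h : i + 2 ≤ j) (x : M) : E i (C j x) = C j (E i x) := by
  obtain ⟨j, rfl⟩ : ∃ k, j = k + 2 := ⟨j - 2, by omega⟩
  have h' : i ≤ j := by omega
  rw [E_apply, ACf i j _ h', E_apply, CC i j _ h']

/-- `E (j+2)` and a cup below -/
theorem E2_C {i j : ℕ} (h : i ≤ j) (x : M) : E (j + 2) (C i x) = C i (E j x) := by
  rw [E_apply, AfC i j _ h, E_apply, CC i j _ h]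

/-- a cap below and `E (j+2)` -/
theorem A_E2 {i j : ℕ} (h : i ≤ j) (x : M) : A i (E (j + 2) x) = E j (A i x) := by
  rw [E_apply, ACf i j _ h, E_apply, AA i j _ h]

/-- a cap above and `E i` -/
theorem A_E_far {i j : ℕ} (h : i + 2 ≤ j) (x : M) : A j (E i x) = E i (A j x) := by
  obtain ⟨j, rfl⟩ : ∃ k, j = k + 2 := ⟨j - 2, by omega⟩
  have h' : i ≤ j := by omega
  rw [E_apply, AfC i j _ h', E_apply, AA i j _ h']

/-- the `R`-matrix with spectral parameter `p / q = exp (2 i u)` (times `2 i q exp (i u)`) -/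
noncomputable def R (i : ℕ) (p q : ℂ) : M →ₗ[ℂ] M :=
  (w * q - (1 - w) * p) • LinearMap.id + (p - q) • E i

theorem R_apply (i : ℕ) (p q : ℂ) (x : M) :
    R i p q x = (w * q - (1 - w) * p) • x + (p - q) • E i x := rfl

/-- `R off (p 0) (q 0) ∘ R (off+1) (p 1) (q 1) ∘ ... ∘ R (off+k-1) (p (k-1)) (q (k-1))` -/
noncomputable def row (off : ℕ) (p q : ℕ → ℂ) : ℕ → M →ₗ[ℂ] M
  | 0 => LinearMap.id
  | k + 1 => row off p q k ∘ₗ R (off + k) (p k) (q k)

theorem row_zero (o : ℕ) (p q : ℕ → ℂ) (x : M) : row o p q 0 x = x := rfl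

theorem row_succ (o k : ℕ) (p q : ℕ → ℂ) (x : M) :
    row o p q (k + 1) x = row o p q k (R (o + k) (p k) (q k) x) := rfl

/-- the double row transfer matrix (not normalised) -/
noncomputable def T (x : ℕ → ℂ) (L : ℕ) (z : ℂ) : M →ₗ[ℂ] M :=
  A 0 ∘ₗ row 1 (fun _ => w) (fun k => z * x k) L ∘ₗ row 0 (fun _ => w * z) x L ∘ₗ C L

theorem T_apply (x : ℕ → ℂ) (L : ℕ) (z : ℂ) (u : M) : T x L z u =
    A 0 (row 1 (fun _ => w) (fun k => z * x k) L (row 0 (fun _ => w * z) x L (C L u))) := rfl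

/-- the mass of `T x L z` is `w ^ (4 L) * nu x L z` -/
noncomputable def nu (x : ℕ → ℂ) (L : ℕ) (z : ℂ) : ℂ := ∏ k ∈ range L, ((z + x k) * (1 + z * x k))

end H28A
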